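import Mathlib
import Pool.Agent.Helper35.HC.StF

/-!
# Project HC, module LOB: lower bound for the maximum (ODE comparison)
-/

set_option autoImplicit false

namespace Helper42.HC

open Helper35.HC Helper35.HSF Helper35.MS Helper35.PI Helper35.PI2 Helper32.CL
open scoped ContDiff Manifold Topology ENNReal BigOperators
open MeasureTheory Set Filter

/-- the upper bound for the record value -/
theorem lob_A {n s L x : ℝ} (hn : 0 < n) (hs : 0 < s) (hL : 1 ≤ L) (hx : x ≤ 1 / 2)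
    (h : 2 / n * ((1 - x) * L * s) ≤ 1) : L ≤ n / s := by
  rw [le_div_iff₀ hs]
  have h1 : 2 * ((1 - x) * L * s) ≤ n := by
    have := mul_le_mul_of_nonneg_left h hn.le
    have e : n * (2 / n * ((1 - x) * L * s)) = 2 * ((1 - x) * L * s) := by
      field_simp
    rw [e] at this
    linarith
  have h2 : 0 ≤ L * s := by positivity
  nlinarith

/-- powers -/
theorem lob_B {n s L σ : ℝ} (hn : 1 ≤ n) (hs : 0 < s) (hL : 1 ≤ L) (h : L ≤ n / s)
    (hσ0 : 0 < σ) (hσ1 : σ < 1) : L ^ (1 - σ) ≤ n * s ^ (σ - 1) := by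
  have h0 : (0 : ℝ) ≤ L := by linarith
  have hn0 : (0 : ℝ) ≤ n := by linarith
  have h1 : L ^ (1 - σ) ≤ (n / s) ^ (1 - σ) := Real.rpow_le_rpow h0 h (by linarith)
  have h2 : (n / s) ^ (1 - σ) = n ^ (1 - σ) * s ^ (σ - 1) := by
    rw [Real.div_rpow hn0 hs.le, div_eq_mul_inv, ← Real.rpow_neg hs.le]
    congr 2
    ring
  have h3 : n ^ (1 - σ) ≤ n := by
    have := Real.rpow_le_rpow_of_exponent_le hn (show 1 - σ ≤ 1 by linarith)
    rwa [Real.rpow_one] at this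
  rw [h2] at h1
  exact h1.trans (mul_le_mul_of_nonneg_right h3 (Real.rpow_nonneg hs.le _))

/-- the integrating factor -/
noncomputable def psi (T K σ : ℝ) (t : ℝ) : ℝ := Real.exp (K / σ * (T - t) ^ σ)

theorem psi_smooth (T K σ : ℝ) : ContDiffOn ℝ ∞ (psi T K σ) (Ioo 0 T) := by
  intro t ht
  have hne : T - t ≠ 0 := by have := ht.2; linarith
  have h1 : ContDiffAt ℝ ∞ (fun t : ℝ => T - t) t := contDiffAt_const.sub contDiffAt_id
  have h2 : ContDiffAt ℝ ∞ (fun t : ℝ => (T - t) ^ σ) t := h1.rpow_const_of_ne hne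
  exact ((contDiffAt_const.mul h2).exp).contDiffWithinAt

theorem psi_deriv {T K σ t : ℝ} (hσ : 0 < σ) (ht : t < T) :
    deriv (psi T K σ) t = -(K * (T - t) ^ (σ - 1) * psi T K σ t) := by
  have hne : T - t ≠ 0 := by linarith
  have h1 : HasDerivAt (fun t : ℝ => T - t) (-1) t := by
    simpa using (hasDerivAt_id' t).const_sub T
  have h2 : HasDerivAt (fun t : ℝ => (T - t) ^ σ) (-1 * σ * (T - t) ^ (σ - 1)) t :=
    h1.rpow_const (Or.inl hne)
  have h3 := ((h2.const_mul (K / σ)).exp).deriv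
  have h4 : deriv (psi T K σ) t
      = Real.exp (K / σ * (T - t) ^ σ) * (K / σ * (-1 * σ * (T - t) ^ (σ - 1))) := h3
  rw [h4]
  unfold psi
  field_simp

theorem psi_one_le {T K σ t : ℝ} (hK : 0 ≤ K) (hσ : 0 < σ) (ht : t ≤ T) :
    1 ≤ psi T K σ t := by
  unfold psi
  exact Real.one_le_exp (mul_nonneg (div_nonneg hK hσ.le) (Real.rpow_nonneg (by linarith) _))

/-- the comparison function -/
noncomputable def yc (y₀ β t₀ : ℝ) (t : ℝ) : ℝ := (1 / y₀ - β * (t - t₀))⁻¹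

theorem yc_den {y₀ β t₀ t T : ℝ} (hy : 0 < y₀) (hβ : 0 < β) (ht : t ≤ T)
    (h : β * ((T - t₀) * y₀) < 1) : 0 < 1 / y₀ - β * (t - t₀) := by
  have h1 : β * (T - t₀) < 1 / y₀ := by
    rw [lt_div_iff₀ hy]
    linarith [mul_assoc β (T - t₀) y₀]
  have h2 : β * (t - t₀) ≤ β * (T - t₀) := mul_le_mul_of_nonneg_left (by linarith) hβ.le
  linarith

theorem yc_smooth {y₀ β t₀ T : ℝ} (hy : 0 < y₀) (hβ : 0 < β)
    (h : β * ((T - t₀) * y₀) < 1) : ContDiffOn ℝ ∞ (yc y₀ β t₀) (Ioo 0 T) := by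
  intro t ht
  have hne : 1 / y₀ - β * (t - t₀) ≠ 0 := (yc_den hy hβ ht.2.le h).ne'
  have h1 : ContDiffAt ℝ ∞ (fun t : ℝ => 1 / y₀ - β * (t - t₀)) t :=
    contDiffAt_const.sub (contDiffAt_const.mul (contDiffAt_id.sub contDiffAt_const))
  exact (h1.inv hne).contDiffWithinAt

theorem yc_deriv {y₀ β t₀ T t : ℝ} (hy : 0 < y₀) (hβ : 0 < β) (ht : t ≤ T)
    (h : β * ((T - t₀) * y₀) < 1) : deriv (yc y₀ β t₀) t = β * yc y₀ β t₀ t ^ 2 := by
  have hne : 1 / y₀ - β * (t - t₀) ≠ 0 := (yc_den hy hβ ht h).ne'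
  have h1 : HasDerivAt (fun t : ℝ => 1 / y₀ - β * (t - t₀)) (-β) t := by
    have := (((hasDerivAt_id' t).sub_const t₀).const_mul β).const_sub (1 / y₀)
    simpa using this
  have h2 := (h1.inv hne).deriv
  have h3 : deriv (yc y₀ β t₀) t = - -β / (1 / y₀ - β * (t - t₀)) ^ 2 := h2
  rw [h3]
  unfold yc
  rw [inv_pow, neg_neg, div_eq_mul_inv]

theorem yc_le {y₀ β t₀ T t : ℝ} (hy : 0 < y₀) (hβ : 0 < β) (ht : t ≤ T)
    (h : β * ((T - t₀) * y₀) < 1) : yc y₀ β t₀ t ≤ yc y₀ β t₀ T := by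
  unfold yc
  apply inv_anti₀ (yc_den hy hβ le_rfl h)
  have : β * (t - t₀) ≤ β * (T - t₀) := mul_le_mul_of_nonneg_left (by linarith) hβ.le
  linarith

/-- MODULE LOB -/
theorem hLOB (hCMP : StCMP) (hPKD : StPKD) (hFZP : StFZP) (hHTR : StHTR) (hSMF : StSMF)
    (hI4J : StI4J) : StLOB := by
  intro n hn N M _ _ _ _ _ _ T F ts κ₀ δ t₂ C σ Λ₀ D
  obtain ⟨C', σ', t₃, hC', hσ', hσσ, ht₃, H⟩ := hCMP n hn N M T F ts κ₀ δ t₂ C σ Λ₀ D
  have hnR : (2 : ℝ) ≤ n := by exact_mod_cast hn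
  have hn0 : (0 : ℝ) < n := by linarith
  have hn1 : (1 : ℝ) ≤ n := by linarith
  have hC0 : 0 < C := lt_of_lt_of_le one_pos D.C1
  have hσ0 := D.σ0
  have hσ1 := D.σ1
  set K : ℝ := 2 * C * n with hK
  have hK0 : 0 < K := by positivity
  have fl := D.d.fl
  have him : IsImmJ (n := n) (Ioo 0 T) F := fl.toIsImmJ
  set Y : M → ℝ → ℝ := fun q t => ‖HH (n := n) F q t‖ ^ 2 with hY
  have hSY : SmJ n (Ioo 0 T) Y := (hSMF n N M (Ioo 0 T) F him).2.2.2.1
  have hts : 0 < ts := D.d.ts0.1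
  have ht2 := D.t2
  have hsub : ∀ t ∈ Ico t₃ T, t ∈ Ioo 0 T := fun t ht =>
    ⟨by linarith [ht.1, ht₃.1, ht2.1], ht.2⟩
  -- the differential inequality for `Y`
  have hYi : ∀ t ∈ Ico t₃ T, ∀ q,
      htN n F Y q t ≤ 2 / n * Y q t ^ 2 + K * (T - t) ^ (σ - 1) * Y q t := by
    intro t ht q
    obtain ⟨L, hL1, hLx, hLY, hL2, hLq⟩ := H t ht
    have hs : 0 < T - t := by linarith [ht.2]
    have hLn : L ≤ n / (T - t) := lob_A hn0 hs hL1 hLx hL2
    have hLp := lob_B hn1 hs hL1 hLn hσ0 hσ1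
    have hth : thN n F q t ≤ C * (n * (T - t) ^ (σ - 1)) :=
      (hLq q).2.1.trans (mul_le_mul_of_nonneg_left hLp hC0.le)
    obtain ⟨G, R, Z, a, w, _, _, _, _, _, he, _, _, _, _, hw, _, _, hhY, _⟩ :=
      hPKD n hn N M T F ts κ₀ δ D.d t ⟨by linarith [ht.1, ht₃.1, ht2.1], ht.2⟩ q
        (Y q t) (thN n F q t) (eH n F q t) rfl rfl rfl
    have hY0 : 0 ≤ Y q t := by positivity
    have e1 : htN n F Y q t = -2 * eH n F q t + 2 * w * Y q t := hhY
    rw [e1]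
    have e2 : 2 * w * Y q t ≤ 2 * (C * (n * (T - t) ^ (σ - 1)) + Y q t / n) * Y q t := by
      apply mul_le_mul_of_nonneg_right _ hY0
      linarith
    have e3 : 2 * (C * (n * (T - t) ^ (σ - 1)) + Y q t / n) * Y q t
        = 2 / n * Y q t ^ 2 + K * (T - t) ^ (σ - 1) * Y q t := by
      rw [hK]; ring
    linarith
  refine ⟨K / σ, t₃, div_pos hK0 hσ0, ht₃, ?_⟩
  intro t₀ ht₀
  by_contra hcon
  push Not at hcon
  have hs : 0 < T - t₀ := by linarith [ht₀.2]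
  have ht₀J := hsub t₀ ht₀
  -- `ψ`
  set P : ℝ → ℝ := psi T K σ with hP
  have hSP : SmJ n (Ioo 0 T) (fun (_ : M) t => P t) ∧ ∀ q : M, ∀ t ∈ Ioo 0 T,
      gdM n F t (fun _ : M => P t) q = 0 ∧ htN n F (fun (_ : M) t => P t) q t = deriv P t :=
    (hHTR n N M (Ioo 0 T) F him Y Y hSY hSY).2.2.2 P (psi_smooth T K σ)
  have hpr := (hHTR n N M (Ioo 0 T) F him (fun (_ : M) t => P t) Y hSP.1 hSY).1
  -- the differential inequality for `ψY`
  have hPYi : ∀ t ∈ Ico t₃ T, ∀ q,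
      htN n F (fun q t => P t * Y q t) q t ≤ 2 / n * (P t * Y q t) ^ 2 := by
    intro t ht q
    have h1 := (hpr.2 q t (hsub t ht)).2
    have h2 := hSP.2 q t (hsub t ht)
    rw [h2.1, h2.2, inner_zero_left, psi_deriv hσ0 ht.2] at h1
    have hP1 : 1 ≤ P t := psi_one_le hK0.le hσ0 ht.2.le
    have hY0 : 0 ≤ Y q t := by positivity
    have h3 := mul_le_mul_of_nonneg_left (hYi t ht q) (show 0 ≤ P t by linarith)
    have h4 : P t * (2 / n * Y q t ^ 2) ≤ 2 / n * (P t * Y q t) ^ 2 := by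
      have h5 : 0 ≤ 2 / n * Y q t ^ 2 := by positivity
      have h6 : P t ≤ P t * P t := by nlinarith
      calc P t * (2 / n * Y q t ^ 2) ≤ (P t * P t) * (2 / n * Y q t ^ 2) :=
            mul_le_mul_of_nonneg_right h6 h5
        _ = 2 / n * (P t * Y q t) ^ 2 := by ring
    rw [h1]
    have h7 : P t * (2 / n * Y q t ^ 2 + K * (T - t) ^ (σ - 1) * Y q t)
        = P t * (2 / n * Y q t ^ 2) + P t * (K * (T - t) ^ (σ - 1) * Y q t) := by ring
    have h8 : Y q t * -(K * (T - t) ^ (σ - 1) * psi T K σ t)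
        = -(P t * (K * (T - t) ^ (σ - 1) * Y q t)) := by rw [hP]; ring
    rw [h8]
    linarith
  -- the maximum at `t₀`
  have hcY : Continuous (fun q => Y q t₀) := by
    have h1 := (hI4J n N M (Ioo 0 T) F him).2.1
    have h2 : Continuous (fun q : M => HH (n := n) F q t₀) := by
      rw [← continuousOn_univ]
      exact ContinuousOn.comp (g := fun z : M × ℝ => HH (n := n) F z.1 z.2)
        (f := fun q : M => (q, t₀)) h1 (by fun_prop) (fun q _ => ⟨mem_univ _, ht₀J⟩)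
    exact (h2.norm).pow 2
  obtain ⟨q₁, -, hq₁⟩ := isCompact_univ.exists_isMaxOn (univ_nonempty (α := M)) hcY.continuousOn
  have hmax : ∀ q, Y q t₀ ≤ Y q₁ t₀ := fun q => hq₁ (mem_univ q)
  have hY1 : 1 ≤ Y q₁ t₀ := D.d.Y1 t₀ ht₀J q₁
  have hP1 : 1 ≤ P t₀ := psi_one_le hK0.le hσ0 ht₀.2.le
  set a : ℝ := P t₀ * Y q₁ t₀ with ha
  have ha0 : 0 < a := by positivity
  set c : ℝ := 2 / n * (T - t₀) with hc
  have hc0 : 0 < c := by positivity
  have hca : c * a < 1 := by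
    have h1 := hcon q₁
    set x : ℝ := K / σ * (T - t₀) ^ σ with hx
    have h2 : (1 - x) * Real.exp x ≤ 1 := by
      have h3 : 1 - x ≤ Real.exp (-x) := by linarith [Real.add_one_le_exp (-x)]
      calc (1 - x) * Real.exp x ≤ Real.exp (-x) * Real.exp x :=
            mul_le_mul_of_nonneg_right h3 (Real.exp_pos x).le
        _ = 1 := by rw [← Real.exp_add]; simp
    have h4 : P t₀ = Real.exp x := rfl
    have h5 : 2 / n * ((T - t₀) * Y q₁ t₀) * Real.exp x < (1 - x) * Real.exp x :=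
      mul_lt_mul_of_pos_right h1 (Real.exp_pos x)
    have h6 : c * a = 2 / n * ((T - t₀) * Y q₁ t₀) * Real.exp x := by
      rw [ha, hc, h4]; ring
    rw [h6]
    linarith
  obtain ⟨y₀, hy1, hy2⟩ := exists_between (show a < 1 / c by rw [lt_div_iff₀ hc0]; linarith)
  have hy0 : 0 < y₀ := by linarith
  have hsy : 0 < (T - t₀) * y₀ := by positivity
  obtain ⟨β, hβ1, hβ2⟩ := exists_between (show 2 / (n : ℝ) < 1 / ((T - t₀) * y₀) by
    rw [lt_div_iff₀ hsy]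
    rw [lt_div_iff₀ hc0] at hy2
    have : 2 / (n : ℝ) * ((T - t₀) * y₀) = y₀ * c := by rw [hc]; ring
    rw [this]; exact hy2)
  have hβ0 : 0 < β := lt_trans (by positivity) hβ1
  have hβ3 : β * ((T - t₀) * y₀) < 1 := by rwa [lt_div_iff₀ hsy] at hβ2
  -- the comparison function
  set y : ℝ → ℝ := yc y₀ β t₀ with hyd
  have hSy : SmJ n (Ioo 0 T) (fun (_ : M) t => y t) ∧ ∀ q : M, ∀ t ∈ Ioo 0 T,
      gdM n F t (fun _ : M => y t) q = 0 ∧ htN n F (fun (_ : M) t => y t) q t = deriv y t :=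
    (hHTR n N M (Ioo 0 T) F him Y Y hSY hSY).2.2.2 y (yc_smooth hy0 hβ0 hβ3)
  have hlin := (hHTR n N M (Ioo 0 T) F him (fun q t => P t * Y q t) (fun (_ : M) t => y t)
    hpr.1 hSy.1).2.1 1 (-1)
  obtain ⟨t', ht'J, ht't, q, hq⟩ := D.d.unb (y T) t₀ ht₀.2
  have hy_at : y t₀ = y₀ := by
    rw [hyd]; unfold yc; simp
  have hfin := hFZP n N M (Ioo 0 T) F fl (fun q t => 1 * (P t * Y q t) + -1 * y t) t₀ t'
    hlin.1 (fun t ht => ⟨by linarith [ht.1, ht₀J.1], by linarith [ht.2, ht'J.2]⟩)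
    (by
      intro q
      have h1 : P t₀ * Y q t₀ ≤ a := mul_le_mul_of_nonneg_left (hmax q) (by linarith)
      show 1 * (P t₀ * Y q t₀) + -1 * y t₀ < 0
      rw [hy_at]
      linarith)
    (by
      intro q t ht h0 _ _
      have htI : t ∈ Ico t₃ T := ⟨by linarith [ht.1, ht₀.1], by linarith [ht.2, ht'J.2]⟩
      have h1 := (hlin.2 q t (hsub t htI)).2
      have h2 := (hSy.2 q t (hsub t htI)).2
      rw [h2, yc_deriv hy0 hβ0 htI.2.le hβ3] at h1
      rw [h1]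
      have h3 := hPYi t htI q
      have h4 : P t * Y q t = y t := by
        have h5 : 1 * (P t * Y q t) + -1 * y t = 0 := h0
        linarith
      rw [h4] at h3
      have h6 : 0 < y t := inv_pos.mpr (yc_den hy0 hβ0 htI.2.le hβ3)
      have h7 : 2 / n * y t ^ 2 < β * y t ^ 2 := mul_lt_mul_of_pos_right hβ1 (by positivity)
      have h8 : yc y₀ β t₀ t = y t := rfl
      rw [h8]
      linarith)
    q t' ⟨ht't.le, le_rfl⟩
  have h1 : 1 * (P t' * Y q t') + -1 * y t' < 0 := hfin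
  have h2 : y t' ≤ y T := yc_le hy0 hβ0 ht'J.2.le hβ3
  have h3 : 1 ≤ P t' := psi_one_le hK0.le hσ0 ht'J.2.le
  have h4 : y T < Y q t' := hq
  have h5 : 0 ≤ Y q t' := by positivity
  have h6 : Y q t' ≤ P t' * Y q t' := le_mul_of_one_le_left h5 h3
  linarith

end Helper42.HC
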